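import Pool.Agent.Helper26.WR.Stmts

set_option autoImplicit false

/-! # The conductor of the extension with group the wreath product -/

namespace Pool.Agent.Helper26.WR

open Pool.Agent.Helper21.DN

universe u

/-- the orbit-stabilizer theorem for a transitive action through a homomorphism -/
theorem one_orbit {G P1 : Type*} [Group G] [Finite G] [Group P1] (r : G →* P1) {W : Type}
    [Fintype W] [MulAction P1 W] (w0 : W) (hr : Function.Surjective r)
    (htr : ∀ w : W, ∃ g : P1, g • w0 = w) :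
    Nat.card G = Fintype.card W * Nat.card ((MulAction.stabilizer P1 w0).comap r) := by
  classical
  have h1 := Subgroup.card_mul_index ((MulAction.stabilizer P1 w0).comap r)
  rw [Subgroup.index_comap_of_surjective _ hr] at h1
  have h2 : (MulAction.stabilizer P1 w0).index = Fintype.card W := by
    rw [MulAction.index_stabilizer]
    have : MulAction.orbit P1 w0 = Set.univ := by
      ext w
      simp only [Set.mem_univ, iff_true]
      obtain ⟨g, hg⟩ := htr w
      exact ⟨g, hg⟩
    rw [this, Set.ncard_univ, Nat.card_eq_fintype_card]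
  rw [← h1, h2, mul_comm]

/-- the subgroup fixing an abstract intermediate field -/
theorem one_card {K F M : Type u} [Field K] [Field F] [Field M] [Algebra K F] [Algebra K M]
    [Algebra F M] [IsScalarTower K F M] [FiniteDimensional K M] [FiniteDimensional F M]
    (H : Subgroup (M ≃ₐ[K] M))
    (hH : ∀ σ : M ≃ₐ[K] M, σ ∈ H ↔ ∀ x : F, σ (algebraMap F M x) = algebraMap F M x) :
    Nat.card H = Nat.card (M ≃ₐ[F] M) := by
  refine Nat.card_congr ?_
  refine ⟨fun σ => AlgEquiv.ofRingEquiv (f := ((σ : M ≃ₐ[K] M) : M ≃+* M)) ?_,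
    fun σ => ⟨AlgEquiv.restrictScalars K σ, ?_⟩, ?_, ?_⟩
  · intro x
    exact (hH σ.1).1 σ.2 x
  · rw [hH]
    intro x
    exact σ.commutes x
  · intro σ
    ext x
    rfl
  · intro σ
    ext x
    rfl

/-- the `p`-group property goes up -/
theorem one_pgrp {K F M : Type u} [Field K] [Field F] [Field M] [Algebra K F] [Algebra K M]
    [Algebra F M] [IsScalarTower K F M] (p : ℕ) (h : IsPGroup p (M ≃ₐ[K] M)) :
    IsPGroup p (M ≃ₐ[F] M) := by
  intro σ
  obtain ⟨n, hn⟩ := h (AlgEquiv.restrictScalars K σ)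
  refine ⟨n, ?_⟩
  have key : ∀ m : ℕ, (AlgEquiv.restrictScalars K σ) ^ m = AlgEquiv.restrictScalars K (σ ^ m) := by
    intro m
    induction m with
    | zero => rfl
    | succ m ih =>
      rw [pow_succ, ih, pow_succ]
      rfl
  rw [key] at hn
  ext x
  have := congrArg (fun e : M ≃ₐ[K] M => e x) hn
  simpa using this

theorem st_ONE (hBIG : ST_BIG.{u}) (hSURJ : ST_SURJ.{u}) (hBCF : ST_BCF.{u})
    (hTOPB : ST_TOPB.{u}) (hDIFF : ST_DIFF.{u}) (hPHIC : ST_PHIC.{u}) (hPHIG : ST_PHIG.{u})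
    (hRAM : ST_RAM.{u}) (hVAL : ST_VAL.{u}) (hTOW : ST_TOW.{u}) (hPHM : ST_PHM.{u})
    (hRFV : ST_RFV.{u}) (hQUO : ST_QUO.{u}) : ST_ONE.{u} := by
  classical
  intro p _ k _ _ _ F L N _ _ _ _ _ _ _ _ _ _ _ _ _ _ _ _ vL vN hvL hvN hpL P1 _ i1 W _ _ w0
    hst τ hτ B _ _ _ hB iB y f hy hf hind c1 hc1 d hd hlt
  have hpN : IsPGroup p (N ≃ₐ[F] N) := hB.of_equiv iB.symm
  have : FiniteDimensional (LaurentSeries k) F :=
    FiniteDimensional.left (LaurentSeries k) F L
  obtain ⟨M, _, _, _, _, _, _, _, _, _, _, _, hpM⟩ := hBIG p (LaurentSeries k) F L N hpL hpN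
  have hKNM : IsScalarTower (LaurentSeries k) N M := by
    refine IsScalarTower.of_algebraMap_eq ?_
    intro x
    rw [IsScalarTower.algebraMap_apply (LaurentSeries k) F M,
      IsScalarTower.algebraMap_apply F N M, ← IsScalarTower.algebraMap_apply (LaurentSeries k) F N]
  have : FiniteDimensional F M := FiniteDimensional.right (LaurentSeries k) F M
  have : IsGalois F M := IsGalois.tower_top_of_isGalois (LaurentSeries k) F M
  have : FiniteDimensional L M := FiniteDimensional.right (LaurentSeries k) L M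
  have hpMF : IsPGroup p (M ≃ₐ[F] M) := one_pgrp p hpM
  obtain ⟨v, hv, hR⟩ := hRAM k M
  have : CharP (LaurentSeries k) p :=
    charP_of_injective_ringHom (κ0 k).injective p
  obtain ⟨ρ, hρs, hρr, hρ3, hρ4⟩ := hSURJ p (LaurentSeries k) F L N M P1 i1 W w0 hst τ hτ B hB iB
    y f hy hf hind
  -- the valuation on N
  obtain ⟨vN', hvN', hTVN⟩ := hVAL k N
  have hvNe : vN' = vN := by
    ext x
    rw [hvN', hvN]
  rw [hvNe] at hTVN
  have : Algebra.IsSeparable (LaurentSeries k) L := IsGalois.to_isSeparable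
  obtain ⟨vL', hvL', hTVL⟩ := hVAL k L
  have hvLe : vL' = vL := by
    ext x
    rw [hvL', hvL]
  rw [hvLe] at hTVL
  have hRF := hBCF k (LaurentSeries k) F M (κ0 k) v hR
  have hcomp : (algebraMap F N).comp ((algebraMap (LaurentSeries k) F).comp (κ0 k)) =
      (algebraMap (LaurentSeries k) N).comp (κ0 k) := by
    rw [← RingHom.comp_assoc, ← IsScalarTower.algebraMap_eq]
  have hntN : Nontrivial (N ≃ₐ[F] N) := iB.toEquiv.nontrivial
  obtain ⟨hTa, σs, hσs1, hσs2⟩ := hTOPB p k F N M ((algebraMap (LaurentSeries k) F).comp (κ0 k)) v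
    hRF hpMF vN (by rw [hcomp]; exact hTVN) (by
      intro x
      rw [hv, hvN]
      exact hTOW k N M x) hntN
  set H1 : Subgroup (L ≃ₐ[LaurentSeries k] L) :=
    (MulAction.stabilizer P1 w0).comap i1.toMonoidHom with hH1def
  set H : Subgroup (M ≃ₐ[LaurentSeries k] M) :=
    H1.comap (AlgEquiv.restrictNormalHom L :
      (M ≃ₐ[LaurentSeries k] M) →* (L ≃ₐ[LaurentSeries k] L)) with hHdef
  have hres : ∀ (σ : M ≃ₐ[LaurentSeries k] M) (x : L),
      σ (algebraMap L M x) = algebraMap L M (AlgEquiv.restrictNormalHom L σ x) :=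
    fun σ x => (AlgEquiv.restrictNormal_commutes σ L x).symm
  have hHmem : ∀ σ : M ≃ₐ[LaurentSeries k] M,
      σ ∈ H ↔ ∀ x : F, σ (algebraMap F M x) = algebraMap F M x := by
    intro σ
    have h0 : σ ∈ H ↔ i1 (AlgEquiv.restrictNormalHom L σ) • w0 = w0 := Iff.rfl
    rw [h0, hst]
    constructor
    · intro h x
      rw [IsScalarTower.algebraMap_apply F L M, hres, h]
    · intro h x
      apply (algebraMap L M).injective
      rw [← hres, ← IsScalarTower.algebraMap_apply F L M, h]
  have hHF : Nat.card H = Nat.card (M ≃ₐ[F] M) := one_card H hHmem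
  have htr : ∀ w : W, ∃ g : P1, g • w0 = w := fun w => ⟨i1 (τ w), hτ w⟩
  have hGL : Nat.card (L ≃ₐ[LaurentSeries k] L) = Fintype.card W * Nat.card H1 :=
    one_orbit i1.toMonoidHom w0 i1.surjective htr
  have hGK : Nat.card (M ≃ₐ[LaurentSeries k] M) = Fintype.card W * Nat.card H :=
    one_orbit (i1.toMonoidHom.comp (AlgEquiv.restrictNormalHom L :
      (M ≃ₐ[LaurentSeries k] M) →* (L ≃ₐ[LaurentSeries k] L))) w0
      (i1.surjective.comp (AlgEquiv.restrictNormalHom_surjective M)) htr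
  have hq : 0 < Fintype.card W := Fintype.card_pos_iff.2 ⟨w0⟩
  have hfr : Module.finrank L M * Nat.card H1 = Nat.card (M ≃ₐ[F] M) := by
    have e1 := IsGalois.card_aut_eq_finrank (LaurentSeries k) M
    have e2 := IsGalois.card_aut_eq_finrank (LaurentSeries k) L
    have e3 := Module.finrank_mul_finrank (LaurentSeries k) L M
    rw [← e2, ← e1, hGL, hGK, hHF] at e3
    have e4 : Fintype.card W * (Module.finrank L M * Nat.card H1) =
        Fintype.card W * Nat.card (M ≃ₐ[F] M) := by
      rw [← e3]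
      ring
    exact Nat.eq_of_mul_eq_mul_left hq e4
  have hGFpos : 0 < Nat.card (M ≃ₐ[F] M) := Nat.card_pos
  have hGFr : (0 : ℝ) < (Fintype.card (M ≃ₐ[F] M) : ℝ) := by
    rw [← Nat.card_eq_fintype_card]
    exact_mod_cast hGFpos
  have hqr : (0 : ℝ) < (Fintype.card W : ℝ) := by exact_mod_cast hq
  have hGKr : (Fintype.card (M ≃ₐ[LaurentSeries k] M) : ℝ) =
      (Fintype.card W : ℝ) * (Fintype.card (M ≃ₐ[F] M) : ℝ) := by
    have e1 : Fintype.card (M ≃ₐ[LaurentSeries k] M) =
        Fintype.card W * Fintype.card (M ≃ₐ[F] M) := by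
      rw [← Nat.card_eq_fintype_card (α := M ≃ₐ[LaurentSeries k] M), hGK, hHF,
        Nat.card_eq_fintype_card]
    rw [e1]
    push_cast
    ring
  set u : ℝ := (s v σs : ℝ) with hu
  have hu0 : 0 ≤ u := Nat.cast_nonneg _
  have hPG := hPHIG (LaurentSeries k) F M v u hu0
  rw [hGKr, hσs2] at hPG
  have hC0 : (cond fun τ : N ≃ₐ[F] N => s vN τ) / (Fintype.card W : ℝ) ≤
      phi (fun σ : M ≃ₐ[LaurentSeries k] M => s v σ) u := by
    rw [div_le_iff₀ hqr]
    have : (Fintype.card (M ≃ₐ[F] M) : ℝ) * (cond fun τ : N ≃ₐ[F] N => s vN τ) ≤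
        (Fintype.card (M ≃ₐ[F] M) : ℝ) *
          (phi (fun σ : M ≃ₐ[LaurentSeries k] M => s v σ) u * (Fintype.card W : ℝ)) := by
      linarith
    exact le_of_mul_le_mul_left this hGFr
  have hc1u : c1 < phi (fun σ : M ≃ₐ[LaurentSeries k] M => s v σ) u := lt_of_lt_of_le hlt hC0
  have hCL : ∀ σ : M ≃ₐ[LaurentSeries k] M,
      (∃ x : L, σ (algebraMap L M x) ≠ algebraMap L M x) →
      phi (fun σ : M ≃ₐ[LaurentSeries k] M => s v σ) (s v σ) ≤ c1 := hc1 M v hv hR hpM
  have hmono : ∀ a b : ℝ, 0 ≤ a → a ≤ b →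
      phi (fun σ : M ≃ₐ[LaurentSeries k] M => s v σ) a ≤
        phi (fun σ : M ≃ₐ[LaurentSeries k] M => s v σ) b := by
    intro a b ha hab
    rcases eq_or_lt_of_le hab with h | h
    · rw [h]
    · exact (hPHM _ _ a b ha h).le
  have hsle : ∀ σ : M ≃ₐ[LaurentSeries k] M,
      (∃ x : L, σ (algebraMap L M x) ≠ algebraMap L M x) → (s v σ : ℝ) ≤ u := by
    intro σ hσ
    by_contra hcon
    have h1 := hPHM _ (fun σ : M ≃ₐ[LaurentSeries k] M => s v σ) u (s v σ) hu0 (not_le.1 hcon)
    have h2 := hCL σ hσ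
    linarith
  have hPC := hPHIC (LaurentSeries k) F M v H hHmem u (by
    intro σ hσ
    rw [hHmem] at hσ
    push Not at hσ
    obtain ⟨x, hx⟩ := hσ
    refine hsle σ ⟨algebraMap F L x, ?_⟩
    rw [← IsScalarTower.algebraMap_apply F L M]
    exact hx)
  have hD := hDIFF p k (LaurentSeries k) L M (κ0 k) v hR hpM vL hTVL (by
    intro x
    rw [hv, hvL]
    exact hTOW k L M x) H1
  rw [hd, ← mul_assoc, hfr] at hD
  rw [← hHdef] at hD
  rw [hD, hGKr, hσs2] at hPC
  set C : ℝ := ((cond fun τ : N ≃ₐ[F] N => s vN τ) + (d : ℝ)) / (Fintype.card W : ℝ) with hC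
  have hphi : phi (fun σ : M ≃ₐ[LaurentSeries k] M => s v σ) u = C := by
    rw [hC, eq_div_iff hqr.ne']
    have : (Fintype.card (M ≃ₐ[F] M) : ℝ) *
        (phi (fun σ : M ≃ₐ[LaurentSeries k] M => s v σ) u * (Fintype.card W : ℝ)) =
        (Fintype.card (M ≃ₐ[F] M) : ℝ) * ((cond fun τ : N ≃ₐ[F] N => s vN τ) + (d : ℝ)) := by
      rw [Nat.card_eq_fintype_card] at hPC
      push_cast at hPC
      linarith
    exact mul_left_cancel₀ hGFr.ne' this
  have hRFF : ∀ (g σ : M ≃ₐ[LaurentSeries k] M), s v (g * σ * g⁻¹ : M ≃ₐ[LaurentSeries k] M) =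
      s v σ := fun g σ => (hRFV p k (LaurentSeries k) M (κ0 k) v hR hpM).conj σ g
  refine hQUO p k M v hv hR hpM (WP W B P1) ρ hρs C ?_ ?_
  · intro σ hσ
    by_cases hr : (ρ σ).right = 1
    · have : ∃ w, (ρ σ).left w ≠ 1 := by
        by_contra hcon
        push Not at hcon
        apply hσ
        refine SemidirectProduct.ext (funext hcon) hr
      obtain ⟨w, hw⟩ := this
      obtain ⟨g, σ', hσ', hl⟩ := hρ3 σ hr w hw
      have hne : AlgEquiv.restrictNormalHom N σ' ≠ 1 := by
        intro h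
        rw [h, map_one] at hl
        exact hw hl.symm
      have h1 := hTa σ' hne
      rw [← hσs2] at h1
      have h2 : (s v σ' : ℝ) ≤ u := by
        by_contra hcon
        have := hPHM _ (fun σ : M ≃ₐ[F] M => s v σ) u (s v σ') hu0 (not_le.1 hcon)
        linarith
      have h3 : s v σ = s v σ' := by
        have e1 : (⇑σ' : M → M) = ⇑(g⁻¹ * σ * g) := funext hσ'
        rw [e1]
        have := hRFF g⁻¹ σ
        rw [inv_inv] at this
        exact this.symm
      rw [← hphi]
      refine hmono _ _ (Nat.cast_nonneg _) ?_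
      rw [h3]
      exact h2
    · have hm : ∃ x : L, σ (algebraMap L M x) ≠ algebraMap L M x := by
        by_contra hcon
        push Not at hcon
        apply hr
        rw [hρr]
        have : AlgEquiv.restrictNormalHom L σ = 1 := by
          ext x
          apply (algebraMap L M).injective
          rw [← hres, hcon]
          rfl
        rw [this, map_one]
      have := hCL σ hm
      linarith
  · refine ⟨AlgEquiv.restrictScalars (LaurentSeries k) σs, ?_, hphi⟩
    refine hρ4 σs ?_ hσs1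
    by_contra hcon
    push Not at hcon
    obtain ⟨x, hx⟩ := hcon
    have h1 := hCL (AlgEquiv.restrictScalars (LaurentSeries k) σs) ⟨x, hx⟩
    have h2 : phi (fun σ : M ≃ₐ[LaurentSeries k] M => s v σ)
      (s v (AlgEquiv.restrictScalars (LaurentSeries k) σs)) = C := hphi
    linarith

end Pool.Agent.Helper26.WR
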